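import Pool.Agent.H52.AV3C.LLP3

/-!
# Board av3c, module LLI3: not more pairs (lattice, good point) at infinity
-/

set_option autoImplicit false

namespace Pool.Agent.H52.AV3C

open Polynomial Matrix Pool.AVR Pool.AV3

theorem mem_inf {F : Type} [Field F] (p : F[X]) (M : ℕ) (hp : p.natDegree ≤ M) :
    algebraMap F[X] (RatFunc F) p / RatFunc.X ^ M ∈ Pool.AVS.Iinf F := by
  show (algebraMap F[X] (RatFunc F) p / RatFunc.X ^ M).intDegree ≤ 0
  by_cases h0 : p = 0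
  · rw [h0, map_zero, zero_div, RatFunc.intDegree_zero]
  · have h1 : algebraMap F[X] (RatFunc F) p ≠ 0 :=
      (map_ne_zero_iff _ (RatFunc.algebraMap_injective F)).2 h0
    have h2 : ((RatFunc.X : RatFunc F) ^ M) = algebraMap F[X] (RatFunc F) (X ^ M) := by
      rw [map_pow, RatFunc.algebraMap_X]
    have h3 : ((RatFunc.X : RatFunc F) ^ M) ≠ 0 := pow_ne_zero _ RatFunc.X_ne_zero
    rw [div_eq_mul_inv, RatFunc.intDegree_mul h1 (inv_ne_zero h3), RatFunc.intDegree_inv, h2,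
      RatFunc.intDegree_polynomial, RatFunc.intDegree_polynomial, natDegree_X_pow]
    omega

theorem lli3_thm (hSEC : SECStmt) (hSCC : SCCStmt) (hLLG3 : LLG3Stmt)
    (hRII : Pool.AVS.RIIStmt) : LLI3Stmt := by
  intro F _ _ h2 n f hf c₀ hc₀ N hN hd M g v hkp heq
  obtain ⟨L, _, O, ι, hι, hcls⟩ := ((hSEC F h2 f).1 c₀ hc₀).2
  have hX0 : (RatFunc.X : RatFunc F) ≠ 0 := RatFunc.X_ne_zero
  have hιX : ι RatFunc.X ≠ 0 := (map_ne_zero ι).2 hX0
  obtain ⟨hf1, hf2, hf3⟩ := hf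
  obtain ⟨hk1, hk2, hk3⟩ := hRII F L O ι hι
  obtain ⟨e, he⟩ := hk3 N
  have hm1 : ι (algebraMap F[X] (RatFunc F) f.1 / RatFunc.X ^ (2 * n)) ∈ O :=
    (hι.mem _).2 (mem_inf _ _ hf1)
  have hm2 : ι (algebraMap F[X] (RatFunc F) f.2.1 / RatFunc.X ^ (4 * n)) ∈ O :=
    (hι.mem _).2 (mem_inf _ _ hf2)
  have hm3 : ι (algebraMap F[X] (RatFunc F) f.2.2 / RatFunc.X ^ (6 * n)) ∈ O :=
    (hι.mem _).2 (mem_inf _ _ hf3)
  obtain ⟨a, ha⟩ : ∃ a : O, a = ⟨_, hm1⟩ := ⟨_, rfl⟩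
  obtain ⟨b, hb⟩ : ∃ b : O, b = ⟨_, hm2⟩ := ⟨_, rfl⟩
  obtain ⟨c, hc⟩ : ∃ c : O, c = ⟨_, hm3⟩ := ⟨_, rfl⟩
  have he1 : e (Ideal.Quotient.mk _ a) = AdjoinRoot.mk (X ^ N) (Pool.AVS.finf n f).1 := by
    rw [ha]; exact he _ _ hf1 hm1
  have he2 : e (Ideal.Quotient.mk _ b) = AdjoinRoot.mk (X ^ N) (Pool.AVS.finf n f).2.1 := by
    rw [hb]; exact he _ _ hf2 hm2
  have he3 : e (Ideal.Quotient.mk _ c) = AdjoinRoot.mk (X ^ N) (Pool.AVS.finf n f).2.2 := by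
    rw [hc]; exact he _ _ hf3 hm3
  -- the local class of the scaled form
  have hsc := hSCC L _ _ _ (ι RatFunc.X ^ n) _ (pow_ne_zero n hιX) hcls
  have hA : (a : L) = ι (algebraMap F[X] (RatFunc F) f.1) / (ι RatFunc.X ^ n) ^ 2 := by
    rw [ha]
    show ι _ = _
    rw [map_div₀, map_pow, ← pow_mul, mul_comm n 2]
  have hB : (b : L) = ι (algebraMap F[X] (RatFunc F) f.2.1) / (ι RatFunc.X ^ n) ^ 4 := by
    rw [hb]
    show ι _ = _
    rw [map_div₀, map_pow, ← pow_mul, mul_comm n 4]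
  have hC : (c : L) = ι (algebraMap F[X] (RatFunc F) f.2.2) / (ι RatFunc.X ^ n) ^ 6 := by
    rw [hc]
    show ι _ = _
    rw [map_div₀, map_pow, ← pow_mul, mul_comm n 6]
  have hform : (fun i => ι (((((RatFunc.X : RatFunc F) ^ n)⁻¹) • c₀) i)) =
      (ι RatFunc.X ^ n)⁻¹ • fun i => ι (c₀ i) := by
    funext i
    simp only [Pi.smul_apply, smul_eq_mul, map_mul, map_inv₀, map_pow]
  have hcl : Cls ((a : L), (b : L), (c : L))
      (fun i => ι (((((RatFunc.X : RatFunc F) ^ n)⁻¹) • c₀) i)) := by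
    rw [hform, hA, hB, hC]
    exact hsc
  have hdisc : disc a b c ∉ (IsLocalRing.maximalIdeal O) ^ N := by
    intro h1
    have h3 : Ideal.Quotient.mk ((IsLocalRing.maximalIdeal O) ^ N) (disc a b c) = 0 :=
      Ideal.Quotient.eq_zero_iff_mem.2 h1
    have h4 := congrArg e h3
    rw [map_zero, disc_map, ← RingEquiv.coe_toRingHom, disc_map] at h4
    rw [RingEquiv.coe_toRingHom, he1, he2, he3, ← disc_map, AdjoinRoot.mk_eq_zero] at h4
    exact hd h4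
  have hle := hLLG3 F (Pool.AVS.Iinf F) _ L O ι hι N a b c hdisc _ hcl M g v hkp heq
  rw [hk1, ← hk2, ← nE_equiv e, he1, he2, he3] at hle
  have hκ : 0 < Nat.card (AdjoinRoot (X : F[X])) := by
    rw [card_adj monic_X]
    exact pow_pos Nat.card_pos _
  have hcard : Nat.card (AdjoinRoot ((X : F[X]) ^ N)) = Nat.card (AdjoinRoot (X : F[X])) ^ N := by
    rw [card_adj (monic_X.pow N), card_adj monic_X, monic_X.natDegree_pow, mul_comm, pow_mul]
  have := final_bound _ M _ N hκ hN hle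
  unfold Bw
  rw [hcard]
  exact this

end Pool.Agent.H52.AV3C
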