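import Pool.Agent.H8.AV3.Stmts5

/-!
# Board av3c, module LLP3: not more pairs (lattice, good point) at a finite place
-/

set_option autoImplicit false

namespace Pool.Agent.H52.AV3C

open Polynomial Matrix Pool.AVR Pool.AV3

theorem nE_equiv {R R' : Type} [CommRing R] [CommRing R'] (e : R ≃+* R') (a b c : R) :
    Pool.AVS.nE R' (e a) (e b) (e c) = Pool.AVS.nE R a b c := by
  unfold Pool.AVS.nE
  have h : {p : R' × R' | p.2 ^ 2 = p.1 ^ 3 + e a * p.1 ^ 2 + e b * p.1 + e c} =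
      (fun p : R × R => (e p.1, e p.2)) ''
        {p : R × R | p.2 ^ 2 = p.1 ^ 3 + a * p.1 ^ 2 + b * p.1 + c} := by
    ext ⟨x, y⟩
    constructor
    · intro h
      refine ⟨(e.symm x, e.symm y), ?_, by simp⟩
      apply e.injective
      simp only [map_pow, map_add, map_mul, RingEquiv.apply_symm_apply]
      exact h
    · rintro ⟨⟨x', y'⟩, h, h2⟩
      have h3 := Prod.mk.inj h2
      rw [← h3.1, ← h3.2]
      have h4 := congrArg e h
      simp only [map_pow, map_add, map_mul] at h4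
      exact h4
  rw [h]
  refine Set.ncard_image_of_injective _ ?_
  rintro ⟨x, y⟩ ⟨x', y'⟩ h1
  have h3 := Prod.mk.inj h1
  exact Prod.ext (e.injective h3.1) (e.injective h3.2)

theorem disc_map {R R' : Type} [CommRing R] [CommRing R'] (φ : R →+* R') (a b c : R) :
    φ (disc a b c) = disc (φ a) (φ b) (φ c) := by
  simp only [disc, map_sub, map_add, map_mul, map_pow, map_ofNat]

theorem card_adj {F : Type} [Field F] [Finite F] {P : F[X]} (hP : P.Monic) :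
    Nat.card (AdjoinRoot P) = Nat.card F ^ P.natDegree := by
  have hf : Module.Finite F (AdjoinRoot P) := hP.finite_adjoinRoot
  rw [Module.natCard_eq_pow_finrank (K := F) (V := AdjoinRoot P)]
  rw [(AdjoinRoot.powerBasis' hP).finrank]
  rfl

/-- The final arithmetic: from the integral bound to the real weights. -/
theorem final_bound (κ M E N : ℕ) (hκ : 0 < κ) (hN : 1 ≤ N)
    (h : M * κ ^ (N - 1) ≤ E + κ ^ (N - 1)) :
    ((κ : ℝ) - 1) * M ≤ ((κ : ℝ) - 1) * ((κ : ℝ) * E / ((κ ^ N : ℕ) : ℝ) + 1) := by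
  have hκ1 : (0 : ℝ) ≤ (κ : ℝ) - 1 := by
    have : (1 : ℝ) ≤ (κ : ℝ) := by exact_mod_cast hκ
    linarith
  apply mul_le_mul_of_nonneg_left _ hκ1
  have hk : (0 : ℝ) < (κ : ℝ) := by exact_mod_cast hκ
  have hp : (0 : ℝ) < (κ : ℝ) ^ (N - 1) := pow_pos hk _
  have h4 : (M : ℝ) * (κ : ℝ) ^ (N - 1) ≤ E + (κ : ℝ) ^ (N - 1) := by exact_mod_cast h
  have h5 : ((κ ^ N : ℕ) : ℝ) = (κ : ℝ) * (κ : ℝ) ^ (N - 1) := by
    rw [Nat.cast_pow, ← pow_succ', Nat.sub_add_cancel hN]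
  rw [h5, mul_div_mul_left _ _ hk.ne']
  have h6 : (M : ℝ) - 1 ≤ (E : ℝ) / (κ : ℝ) ^ (N - 1) := by
    rw [le_div_iff₀ hp]
    linarith
  linarith

theorem llp3_thm (hSEC : SECStmt) (hLLG3 : LLG3Stmt) (hRIP : Pool.AVS.RIPStmt) : LLP3Stmt := by
  classical
  intro F _ _ h2 f c hc P hPm hPi N hN hd M g v hkp heq
  obtain ⟨L, _, O, ι, hι, hcls⟩ := ((hSEC F h2 f).1 c hc).1 P hPm hPi
  have hmem : ∀ p : F[X], ι (algebraMap F[X] (RatFunc F) p) ∈ O := by
    intro p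
    rw [hι.mem]
    show ¬ P ∣ _
    rw [RatFunc.denom_algebraMap]
    intro h1
    exact hPi.not_isUnit (isUnit_of_dvd_one h1)
  obtain ⟨hk1, hk2, hk3⟩ := hRIP F P hPm hPi L O ι hι
  obtain ⟨a, ha⟩ : ∃ a : O, a = ⟨ι (algebraMap F[X] (RatFunc F) f.1), hmem f.1⟩ := ⟨_, rfl⟩
  obtain ⟨b, hb⟩ : ∃ b : O, b = ⟨ι (algebraMap F[X] (RatFunc F) f.2.1), hmem f.2.1⟩ := ⟨_, rfl⟩
  obtain ⟨c', hc'⟩ : ∃ c' : O, c' = ⟨ι (algebraMap F[X] (RatFunc F) f.2.2), hmem f.2.2⟩ :=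
    ⟨_, rfl⟩
  have hcls' : Cls ((a : L), (b : L), (c' : L)) (fun i => ι (c i)) := by
    rw [ha, hb, hc']
    exact hcls
  obtain ⟨e, he⟩ := hk3 N
  have he1 : e (Ideal.Quotient.mk _ a) = AdjoinRoot.mk (P ^ N) f.1 := by
    rw [ha]; exact he _ _
  have he2 : e (Ideal.Quotient.mk _ b) = AdjoinRoot.mk (P ^ N) f.2.1 := by
    rw [hb]; exact he _ _
  have he3 : e (Ideal.Quotient.mk _ c') = AdjoinRoot.mk (P ^ N) f.2.2 := by
    rw [hc']; exact he _ _
  have hκ : 0 < Nat.card (AdjoinRoot P) := by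
    rw [card_adj hPm]
    exact pow_pos Nat.card_pos _
  have hdisc : disc a b c' ∉ (IsLocalRing.maximalIdeal O) ^ N := by
    intro h1
    have h2 : Ideal.Quotient.mk ((IsLocalRing.maximalIdeal O) ^ N) (disc a b c') = 0 :=
      Ideal.Quotient.eq_zero_iff_mem.2 h1
    have h3 := congrArg e h2
    rw [map_zero, disc_map, ← RingEquiv.coe_toRingHom, disc_map] at h3
    rw [RingEquiv.coe_toRingHom, he1, he2, he3, ← disc_map, AdjoinRoot.mk_eq_zero] at h3
    exact hd h3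
  have hle := hLLG3 F (Pool.AVS.IP P) _ L O ι hι N a b c' hdisc c hcls' M g v hkp heq
  rw [hk1, ← hk2, ← nE_equiv e, he1, he2, he3] at hle
  have hcard : Nat.card (AdjoinRoot (P ^ N)) = Nat.card (AdjoinRoot P) ^ N := by
    rw [card_adj (hPm.pow N), card_adj hPm, hPm.natDegree_pow, mul_comm, pow_mul]
  have := final_bound _ M _ N hκ hN hle
  unfold Bw
  rw [hcard]
  exact this

end Pool.Agent.H52.AV3C
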